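import Pool.Agent.Lib.MP_305fdd_al.To.T.Deg
import Pool.Agent.Lib.MP_305fdd_al.To.Eu.Deg

/-!
# MP_305fdd_al, torsion room: the Euler number and helper67's Euler classes
-/

set_option autoImplicit false

namespace Pool.Agent.ToNR

open Pool.Agent.Su Pool.Agent.ToEu

/-- the projection of the universal cover -/
def prT : Tld →* SL2 := (MonoidHom.fst SL2 CircleDeg1Liftˣ).comp Tld.subtype

theorem prT_apply (t : Tld) : prT t = t.1.1 := rfl

theorem cen_prT : ToT.Cen prT where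
  surj A := by
    obtain ⟨f, hf⟩ := exists_lift A
    exact ⟨⟨(A, f), hf⟩, rfl⟩
  cen z hz x := by
    have h1 : (z.1.1, z.1.2) ∈ Tld := z.2
    have h2 : z.1.1 = 1 := hz
    rw [h2] at h1
    obtain ⟨k, hk⟩ := lift_unique (even_mem 0) h1
    rw [mul_zero, zt_zero, mul_one] at hk
    apply Subtype.ext
    refine Prod.ext ?_ ?_
    · show z.1.1 * x.1.1 = x.1.1 * z.1.1
      rw [h2, one_mul, mul_one]
    · show z.1.2 * x.1.2 = x.1.2 * z.1.2
      rw [hk]
      exact (zt_comm _ _).eq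

theorem eul_eu {g : ℕ} (ρ : SurfaceGroup g →* SL2) : (ToT.eul cen_prT ρ).1 = (1, zt (eu ρ)) := by
  obtain ⟨θ, hθ⟩ := exists_hom ρ
  have h1 := ToT.eul_lift cen_prT ρ θ (by
    ext1 w
    rw [MonoidHom.comp_apply, MonoidHom.comp_apply, prT_apply, hθ])
  rw [← h1]
  exact eu_hom ρ θ hθ

/-- the degree acts on the Euler number -/
theorem eu_of_isDeg {g g' : ℕ} {f : SurfaceGroup g' →* SurfaceGroup g} {d : ℤ} (h : ToT.IsDeg f d)
    (ρ : SurfaceGroup g →* SL2) : eu (ρ.comp f) = d * eu ρ := by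
  have h1 := congrArg (fun t : Tld => t.1.2) (h Tld SL2 prT cen_prT ρ)
  have h2 : (ToT.eul cen_prT (ρ.comp f)).1.2 = zt (eu (ρ.comp f)) := by rw [eul_eu]
  have h3 : (ToT.eul cen_prT ρ ^ d).1.2 = zt (eu ρ * d) := by
    have : (ToT.eul cen_prT ρ ^ d).1 = (ToT.eul cen_prT ρ).1 ^ d := rfl
    rw [this, eul_eu, Prod.pow_snd, zt_zpow]
  have h4 : zt (eu (ρ.comp f)) = zt (eu ρ * d) := by
    rw [← h2, ← h3]; exact h1
  rw [mul_comm]
  exact zt_injective h4

theorem eu_of_isDeg_one {g g' : ℕ} {f : SurfaceGroup g' →* SurfaceGroup g} (h : ToT.IsDeg f 1)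
    (ρ : SurfaceGroup g →* SL2) : eu (ρ.comp f) = eu ρ := by
  rw [eu_of_isDeg h, one_mul]

end Pool.Agent.ToNR
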