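import Pool.Agent.Lib.MP_305fdd_al.To.NR.M2
import Pool.Agent.Lib.MP_305fdd_al.To.NR.Tr
import Pool.Agent.Lib.MP_305fdd_al.To.CC.Coc
import Pool.Agent.Lib.MP_305fdd_al.To.CC.Dsc

/-!
# MP_305fdd_al, torsion room: Nielsen realisation
-/

set_option autoImplicit false

namespace Pool.Agent.ToNR

open Pool.Agent.Su Pool.Agent.ToN

theorem inp' {g : ℕ} (hg : 2 ≤ g) : Inp g :=
  inp hg (fun D => ToCC.disc (S := Subsemiring.nonneg ℝ) (fun _ => Subsemiring.mem_nonneg) hg D)
    (fun D => ToCC.coc D hg)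

/-- **Nielsen realisation** for a finite extension of a surface group all of whose elements preserve the
orientation: it is a discrete cocompact subgroup of `PSL(2, ℝ)` -/
theorem nielsen {Λ : Type} [Group Λ] {N : Subgroup Λ} [N.Normal] [N.FiniteIndex] {g : ℕ}
    (hg : 2 ≤ g) (e : SurfaceGroup g ≃* N) (hdeg : ∀ l : Λ, ToT.IsDeg (cj e l).toMonoidHom 1)
    (hC : ∀ l : Λ, (∀ n ∈ N, l * n = n * l) → l = 1) :
    ∃ R : Λ →* PSLR, Function.Injective R ∧ Disc R ∧ Coc R :=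
  real_of hg (inp' hg) e (fun l ρ => eu_of_isDeg_one (hdeg l) ρ) hC

end Pool.Agent.ToNR
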