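import Pool.Agent.Lib.MP_305fdd_al.To.NR.Real
import Pool.Agent.Lib.MP_305fdd_al.To.Ch.Mid

/-!
# MP_305fdd_al, torsion room: the midpoint inequality for the charts over the reals
-/

set_option autoImplicit false

namespace Pool.Agent.ToNR

open Pool.Agent.Su Pool.Agent.ToC

theorem NN_eq : NN = Subsemiring.nonneg ℝ := by
  apply SetLike.ext
  intro x
  rw [Subsemiring.mem_nonneg]
  exact Iff.rfl

theorem mid_of {g : ℕ} (hg : 1 ≤ g) (hpos : ∀ (D : Dat S3 g) (x : SurfaceGroup g),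
    ∃ e : A3, (e = 1 ∨ e = -1) ∧ e * (D.rho x).1.trace ∈ S3) (D₁ D₂ : RDat g) :
    ∃ D₃ : RDat g, ∀ x,
      (D₃.rho x).1.trace ^ 2 ≤ (D₁.rho x).1.trace * (D₂.rho x).1.trace := by
  revert D₁ D₂
  show ∀ D₁ D₂ : Dat (Subsemiring.nonneg ℝ) g, ∃ D₃ : Dat (Subsemiring.nonneg ℝ) g, ∀ x,
      (D₃.rho x).1.trace ^ 2 ≤ (D₁.rho x).1.trace * (D₂.rho x).1.trace
  rw [← NN_eq]
  exact exists_mid hg hpos

end Pool.Agent.ToNR
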