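import Pool.Agent.Lib.MP_305fdd_al.To.NR.M1
import Pool.Agent.Lib.MP_305fdd_al.To.NR.Mid
import Pool.Agent.Lib.MP_305fdd_al.To.Mx.Conv
import Pool.Agent.Lib.MP_305fdd_al.To.Ch.Let

/-!
# MP_305fdd_al, torsion room: all the inputs of Nielsen realisation but discreteness
-/

set_option autoImplicit false

namespace Pool.Agent.ToNR

open Pool.Agent.Su Pool.Agent.ToC Pool.Agent.ToEu Pool.Agent.ToN

theorem m2 {g : ℕ} (hg : 1 ≤ g) (D : RDat g) : eu D.rho = 2 * g - 2 :=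
  ToMx.chart_max (S := Subsemiring.nonneg ℝ) (fun _ => Subsemiring.mem_nonneg) hg D

theorem mid {g : ℕ} (hg : 2 ≤ g) (D₁ D₂ : RDat g) : ∃ D₃ : RDat g, ∀ x,
    (D₃.rho x).1.trace ^ 2 ≤ (D₁.rho x).1.trace * (D₂.rho x).1.trace := by
  refine mid_of (by omega) (fun D x => ?_) D₁ D₂
  rcases eq_or_ne x 1 with rfl | hx
  · refine ⟨1, Or.inl rfl, ?_⟩
    rw [map_one, one_mul]
    have h : (1 : Matrix.SpecialLinearGroup (Fin 2) A3).1.trace = 1 + 1 := by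
      rw [Matrix.trace_fin_two]; rfl
    rw [h]
    exact S3.add_mem S3.one_mem S3.one_mem
  · exact D.tr_mem hg hx

theorem inp {g : ℕ} (hg : 2 ≤ g) (disc : ∀ D : RDat g, Disc (pr.comp D.rho))
    (coc : ∀ D : RDat g, Coc (pr.comp D.rho)) : Inp g :=
  ⟨m1 hg, m2 (by omega), mid hg, disc, coc⟩

end Pool.Agent.ToNR
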