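import Mathlib.Algebra.Ring.Subsemiring.Order
import Mathlib.Analysis.SpecialFunctions.Trigonometric.Basic
import Pool.Agent.Lib.MP_305fdd_al.To.Ch.Defs

/-!
# MP_305fdd_al, torsion room: there is a chart datum of every genus
-/

set_option autoImplicit false

namespace Pool.Agent.ToNR

open Pool.Agent.ToC Real

/-- the unit vector of angle `j π / (2 g)` -/
noncomputable def uv (g : ℕ) (j : ℤ) : Fin 2 → ℝ :=
  ![cos (j * (π / (2 * g))), sin (j * (π / (2 * g)))]

theorem uv_per {g : ℕ} (hg : 1 ≤ g) (j : ℤ) : uv g (j + 2 * g) = -uv g j := by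
  have h0 : (g : ℝ) ≠ 0 := by positivity
  have e : ((j + 2 * g : ℤ) : ℝ) * (π / (2 * g)) = j * (π / (2 * g)) + π := by
    push_cast
    field_simp
  funext i
  fin_cases i
  · simp only [uv, e, cos_add_pi, Fin.zero_eta, Matrix.cons_val_zero, Pi.neg_apply]
  · simp only [uv, e, sin_add_pi, Fin.mk_one, Matrix.cons_val_one, Matrix.cons_val_fin_one,
      Pi.neg_apply]

theorem dt_uv (g : ℕ) (i j : ℤ) : dt (uv g i) (uv g j) = sin (((j - i : ℤ) : ℝ) * (π / (2 * g))) := by
  have e : ((j - i : ℤ) : ℝ) * (π / (2 * g)) = j * (π / (2 * g)) - i * (π / (2 * g)) := by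
    push_cast; ring
  rw [e, sin_sub]
  simp only [dt, uv, Matrix.cons_val_zero, Matrix.cons_val_one, Matrix.cons_val_fin_one]
  ring

theorem sin_uv_pos {g : ℕ} (hg : 1 ≤ g) {n : ℤ} (h1 : 0 < n) (h2 : n < 2 * g) :
    0 < sin ((n : ℝ) * (π / (2 * g))) := by
  have h0 : (0 : ℝ) < g := by positivity
  have hn : (0 : ℝ) < n := by exact_mod_cast h1
  have hn2 : (n : ℝ) < 2 * g := by exact_mod_cast h2
  apply sin_pos_of_pos_of_lt_pi
  · positivity
  · rw [mul_div_assoc', div_lt_iff₀ (by positivity)]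
    nlinarith [pi_pos]

/-- **a chart datum** of genus `g`, all eigenvalues equal to `4` -/
noncomputable def exDat {g : ℕ} (hg : 1 ≤ g) : Dat (Subsemiring.nonneg ℝ) g where
  nu j := uv g j
  w j := (1 / 2 : ℝ) • uv g (-j)
  mu _ := 4
  mui _ := 1 / 4
  dl _ := 4 / 15
  lei _ := (sin (π / (2 * g)))⁻¹
  r _ := 1
  ri _ := 1
  nu_per j := uv_per hg j
  w_per j := by
    have h := uv_per hg (-(j + 2 * g))
    rw [show -(j + 2 * (g : ℤ)) + 2 * g = -j by ring] at h
    rw [h, smul_neg, neg_neg]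
  mu_per _ := rfl
  mu_pair _ := rfl
  nu_pos i j h1 h2 := by
    rw [Subsemiring.mem_nonneg, dt_uv]
    exact (sin_uv_pos hg (by omega) (by omega)).le
  w_pos i j h1 h2 := by
    have e : dt ((1 / 2 : ℝ) • uv g (-j)) ((1 / 2 : ℝ) • uv g (-i))
        = 1 / 4 * dt (uv g (-j)) (uv g (-i)) := by
      simp only [dt, Pi.smul_apply, smul_eq_mul]; ring
    rw [Subsemiring.mem_nonneg, e, dt_uv]
    have := sin_uv_pos hg (n := -i - -j) (by omega) (by omega)
    positivity
  edge j := by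
    have e : dt ((1 / 2 : ℝ) • uv g (-(j + 1))) ((1 / 2 : ℝ) • uv g (-j))
        = 1 / 4 * dt (uv g (-(j + 1))) (uv g (-j)) := by
      simp only [dt, Pi.smul_apply, smul_eq_mul]; ring
    rw [e, dt_uv, dt_uv, show -j - -(j + 1) = (1 : ℤ) by ring, show j + 1 - j = (1 : ℤ) by ring]
    ring
  lei_mul j := by
    rw [dt_uv, show j + 1 - j = (1 : ℤ) by ring]
    have := sin_uv_pos hg (n := 1) (by norm_num) (by omega)
    rw [Int.cast_one, one_mul] at this ⊢
    exact mul_inv_cancel₀ this.ne'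
  lei_mem j := by
    have := sin_uv_pos hg (n := 1) (by norm_num) (by omega)
    rw [Int.cast_one, one_mul] at this
    rw [Subsemiring.mem_nonneg]
    exact (inv_pos.2 this).le
  mu_mem _ := by rw [Subsemiring.mem_nonneg]; norm_num
  mui_mem _ := by rw [Subsemiring.mem_nonneg]; norm_num
  mu_mul _ := by norm_num
  dl_mem _ := by rw [Subsemiring.mem_nonneg]; norm_num
  dl_mul _ := by norm_num
  r_mem _ := by rw [Subsemiring.mem_nonneg]; norm_num
  ri_mem _ := by rw [Subsemiring.mem_nonneg]; norm_num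
  r_mul _ := by norm_num

theorem exists_dat {g : ℕ} (hg : 1 ≤ g) : Nonempty (Dat (Subsemiring.nonneg ℝ) g) := ⟨exDat hg⟩

end Pool.Agent.ToNR
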