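import Pool.Agent.Lib.MP_305fdd_al.To.NR.Real
import Pool.Agent.Lib.MP_305fdd_al.To.Mx.Max

/-!
# MP_305fdd_al, torsion room: maximal homomorphisms are given by charts
-/

set_option autoImplicit false

namespace Pool.Agent.ToNR

open Pool.Agent.Su Pool.Agent.ToEu Pool.Agent.ToN

theorem m1 {g : ℕ} (hg : 2 ≤ g) (ρ : SurfaceGroup g →* SL2) (h : eu ρ = 2 * g - 2) :
    ∃ (D : RDat g) (χ : SurfaceGroup g →* ℤˣ), Tw D χ ρ := by
  have htr : ∀ i, 4 < (ρ (sa g i)).1.trace ^ 2 := by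
    intro i
    have h1 := (max_hyp hg h i).1
    rw [← sq_abs]
    nlinarith
  obtain ⟨D, χ, hD⟩ := ToMx.max_chart (S := Subsemiring.nonneg ℝ)
    (fun x => Subsemiring.mem_nonneg) hg ρ h htr
  refine ⟨D, χ, fun x i j => ?_⟩
  rw [hD, ToMx.tw_apply, ToMx.sgn2_val]
  rfl

end Pool.Agent.ToNR
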