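import Pool.Agent.Lib.MP_305fdd_al.To.N.Disc
import Pool.Agent.Lib.MP_305fdd_al.To.Eu.Cont
import Pool.Agent.Lib.MP_305fdd_al.To.Eu.Max
import Pool.Agent.Lib.MP_305fdd_al.To.Ch.Basic
import Pool.Agent.Lib.MP_305fdd_al.To.NR.Ex

/-!
# MP_305fdd_al, torsion room: Nielsen realisation, the assembly

`N` is a normal subgroup of finite index of `Λ`, isomorphic to a surface group, and all the elements of
`Λ` preserve the Euler number of the homomorphisms `N →* SL(2, ℝ)`.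
-/

set_option autoImplicit false

namespace Pool.Agent.ToNR

open Pool.Agent.Su Pool.Agent.ToEu Pool.Agent.ToN

/-- the data of a chart of genus `g` over the reals -/
abbrev RDat (g : ℕ) : Type := ToC.Dat (Subsemiring.nonneg ℝ) g

/-- `ρ` is the homomorphism of the chart `D`, up to a character with values `± 1` -/
def Tw {g : ℕ} (D : RDat g) (χ : SurfaceGroup g →* ℤˣ) (ρ : SurfaceGroup g →* SL2) : Prop :=
  ∀ x i j, (ρ x).1 i j = sg (χ x) * (D.rho x).1 i j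

/-- the inputs of the assembly -/
structure Inp (g : ℕ) : Prop where
  /-- maximal homomorphisms are given by charts -/
  m1 : ∀ ρ : SurfaceGroup g →* SL2, eu ρ = 2 * g - 2 → ∃ (D : RDat g) (χ : SurfaceGroup g →* ℤˣ),
    Tw D χ ρ
  /-- the homomorphism of a chart is maximal -/
  m2 : ∀ D : RDat g, eu D.rho = 2 * g - 2
  /-- the midpoint inequality -/
  mid : ∀ D₁ D₂ : RDat g, ∃ D₃ : RDat g, ∀ x,
    (D₃.rho x).1.trace ^ 2 ≤ (D₁.rho x).1.trace * (D₂.rho x).1.trace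
  disc : ∀ D : RDat g, Disc (pr.comp D.rho)
  coc : ∀ D : RDat g, Coc (pr.comp D.rho)

theorem Tw.tr {g : ℕ} {D : RDat g} {χ : SurfaceGroup g →* ℤˣ} {ρ : SurfaceGroup g →* SL2}
    (h : Tw D χ ρ) (x : SurfaceGroup g) : (ρ x).1.trace = sg (χ x) * (D.rho x).1.trace := by
  rw [Matrix.trace_fin_two, Matrix.trace_fin_two, h, h]
  ring

theorem Tw.pr {g : ℕ} {D : RDat g} {χ : SurfaceGroup g →* ℤˣ} {ρ : SurfaceGroup g →* SL2}
    (h : Tw D χ ρ) : pr.comp ρ = pr.comp D.rho := by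
  ext x
  rw [MonoidHom.comp_apply, MonoidHom.comp_apply, pr_eq_iff]
  refine pm_of_smul (sg_cases (χ x)) fun i j => h x i j

section

variable {Λ : Type} [Group Λ] {N : Subgroup Λ} [N.Normal] {g : ℕ}

/-- conjugation by `l` as an automorphism of the surface group -/
def cj (e : SurfaceGroup g ≃* N) (l : Λ) : SurfaceGroup g ≃* SurfaceGroup g :=
  (e.trans (MulAut.conjNormal l)).trans e.symm

theorem cj_spec (e : SurfaceGroup g ≃* N) (l : Λ) (x : SurfaceGroup g) :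
    ((e (cj e l x) : N) : Λ) = l * (e x : N) * l⁻¹ := by
  simp [cj]

theorem comp_cj (e : SurfaceGroup g ≃* N) (l : Λ) {Q : Type} [Group Q] (ρ : N →* Q) :
    (ρ.comp (MulAut.conjNormal l).toMonoidHom).comp e.toMonoidHom
      = (ρ.comp e.toMonoidHom).comp (cj e l).toMonoidHom := by
  ext x
  simp [cj]

/-- the maximal homomorphisms -/
def MM (e : SurfaceGroup g ≃* N) : Set (N →* SLR) :=
  {ρ | eu (ρ.comp e.toMonoidHom) = 2 * g - 2}

theorem nrd (hg : 2 ≤ g) (I : Inp g) (e : SurfaceGroup g ≃* N)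
    (hdeg : ∀ (l : Λ) (ρ : SurfaceGroup g →* SL2), eu (ρ.comp (cj e l).toMonoidHom) = eu ρ) :
    NRd N (MM e) (e (sa g ⟨0, by omega⟩)) (e (sb g ⟨0, by omega⟩)) := by
  have hcomp : ∀ ρ : SurfaceGroup g →* SL2,
      (ρ.comp e.symm.toMonoidHom).comp e.toMonoidHom = ρ := by
    intro ρ; ext x; simp
  refine ⟨?_, ?_, ?_, ?_, ?_, ?_, ?_, ?_⟩
  · -- nonempty
    refine ⟨(exDat (show 1 ≤ g by omega)).rho.comp e.symm.toMonoidHom, ?_⟩
    rw [MM, Set.mem_ofPred_eq, hcomp]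
    exact I.m2 _
  · -- closed
    intro ρ hρ
    refine eu_closed' _ (ρ.comp e.toMonoidHom) fun S ε hε => ?_
    classical
    obtain ⟨ρ', hρ', h⟩ := hρ (S.image e) ε hε
    refine ⟨ρ'.comp e.toMonoidHom, hρ', fun x hx i j => ?_⟩
    exact h (e x) (Finset.mem_image_of_mem _ hx) i j
  · -- conjugation
    intro ρ hρ A
    have := eu_conj (ρ.comp e.toMonoidHom) A
    rw [MM, Set.mem_ofPred_eq] at hρ ⊢
    rw [MonoidHom.comp_assoc, this, hρ]
  · -- the action of `Λ`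
    intro ρ hρ l
    rw [MM, Set.mem_ofPred_eq] at hρ ⊢
    rw [comp_cj, hdeg, hρ]
  · -- midpoints
    intro ρ₁ h₁ ρ₂ h₂
    obtain ⟨D₁, χ₁, t₁⟩ := I.m1 _ h₁
    obtain ⟨D₂, χ₂, t₂⟩ := I.m1 _ h₂
    obtain ⟨D₃, hm⟩ := I.mid D₁ D₂
    refine ⟨D₃.rho.comp e.symm.toMonoidHom, ?_, fun x => ?_⟩
    · rw [MM, Set.mem_ofPred_eq, hcomp]
      exact I.m2 _
    · have e1 := t₁.tr (e.symm x)
      have e2 := t₂.tr (e.symm x)
      rw [MonoidHom.comp_apply, MulEquiv.coe_toMonoidHom, MulEquiv.apply_symm_apply] at e1 e2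
      rw [e1, e2, ← abs_mul]
      have h := hm (e.symm x)
      have h0 : 0 ≤ (D₁.rho (e.symm x)).1.trace * (D₂.rho (e.symm x)).1.trace :=
        (sq_nonneg _).trans h
      have e3 : |sg (χ₁ (e.symm x)) * (D₁.rho (e.symm x)).1.trace
          * (sg (χ₂ (e.symm x)) * (D₂.rho (e.symm x)).1.trace)|
          = (D₁.rho (e.symm x)).1.trace * (D₂.rho (e.symm x)).1.trace := by
        rw [abs_mul, abs_mul, abs_mul]
        have s1 : |sg (χ₁ (e.symm x))| = 1 := by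
          rcases sg_cases (χ₁ (e.symm x)) with h | h <;> rw [h] <;> simp
        have s2 : |sg (χ₂ (e.symm x))| = 1 := by
          rcases sg_cases (χ₂ (e.symm x)) with h | h <;> rw [h] <;> simp
        rw [s1, s2, one_mul, one_mul, ← abs_mul, abs_of_nonneg h0]
      rw [e3]
      exact h
  · -- signs
    intro ρ₁ h₁ ρ₂ h₂
    obtain ⟨D₁, χ₁, t₁⟩ := I.m1 _ h₁
    obtain ⟨D₂, χ₂, t₂⟩ := I.m1 _ h₂
    obtain ⟨D₃, hm⟩ := I.mid D₁ D₂
    refine ⟨(χ₁ * χ₂).comp e.symm.toMonoidHom, fun x => ?_⟩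
    have e1 := t₁.tr (e.symm x)
    have e2 := t₂.tr (e.symm x)
    rw [MonoidHom.comp_apply, MulEquiv.coe_toMonoidHom, MulEquiv.apply_symm_apply] at e1 e2
    have h0 : 0 ≤ (D₁.rho (e.symm x)).1.trace * (D₂.rho (e.symm x)).1.trace :=
      (sq_nonneg _).trans (hm (e.symm x))
    have s1 : sg (χ₁ (e.symm x)) * sg (χ₁ (e.symm x)) = 1 := by
      rcases sg_cases (χ₁ (e.symm x)) with h | h <;> rw [h] <;> norm_num
    have s2 : sg (χ₂ (e.symm x)) * sg (χ₂ (e.symm x)) = 1 := by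
      rcases sg_cases (χ₂ (e.symm x)) with h | h <;> rw [h] <;> norm_num
    have e3 : sg (((χ₁ * χ₂).comp e.symm.toMonoidHom) x) = sg (χ₁ (e.symm x)) * sg (χ₂ (e.symm x)) := by
      rw [← sg_mul]; rfl
    rw [e3, e1, e2]
    have e4 : sg (χ₁ (e.symm x)) * sg (χ₂ (e.symm x)) * (sg (χ₁ (e.symm x)) * (D₁.rho (e.symm x)).1.trace)
        * (sg (χ₂ (e.symm x)) * (D₂.rho (e.symm x)).1.trace)
        = (sg (χ₁ (e.symm x)) * sg (χ₁ (e.symm x))) * (sg (χ₂ (e.symm x)) * sg (χ₂ (e.symm x)))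
          * ((D₁.rho (e.symm x)).1.trace * (D₂.rho (e.symm x)).1.trace) := by ring
    rw [e4, s1, s2, one_mul, one_mul]
    exact h0
  · -- commutator
    intro ρ hρ
    have := max_com hg hρ ⟨0, by omega⟩
    simpa only [MonoidHom.comp_apply, MulEquiv.coe_toMonoidHom, map_mul, map_inv] using this
  · -- orientation
    intro ρ hρ
    exact max_ori hg hρ ⟨0, by omega⟩

/-- **Nielsen realisation** -/
theorem real_of (hg : 2 ≤ g) (I : Inp g) [N.FiniteIndex] (e : SurfaceGroup g ≃* N)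
    (hdeg : ∀ (l : Λ) (ρ : SurfaceGroup g →* SL2), eu (ρ.comp (cj e l).toMonoidHom) = eu ρ)
    (hC : ∀ l : Λ, (∀ n ∈ N, l * n = n * l) → l = 1) :
    ∃ R : Λ →* PSLR, Function.Injective R ∧ Disc R ∧ Coc R := by
  have key : ∀ ρ ∈ MM e, ∃ D : RDat g, (pr.comp ρ).comp e.toMonoidHom = pr.comp D.rho := by
    intro ρ hρ
    obtain ⟨D, χ, h⟩ := I.m1 _ hρ
    exact ⟨D, h.pr⟩
  have hfg : Group.FG N := by
    have : Group.FG (SurfaceGroup g) :=
      inferInstanceAs (Group.FG (FreeGroup _ ⧸ Subgroup.normalClosure ({surfRel g} : Set _)))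
    exact Group.fg_of_surjective (f := e.toMonoidHom) e.surjective
  refine (nrd hg I e hdeg).realise' hfg (fun ρ hρ => ?_) (fun ρ hρ => ?_) hC
  · obtain ⟨D, hD⟩ := key ρ hρ
    obtain ⟨ε, hε, h⟩ := I.disc D
    refine ⟨ε, hε, fun n A hA hs => ?_⟩
    have h2 := h (e.symm n) A (by
      rw [hA, ← hD]; simp) hs
    rw [← e.apply_symm_apply n, h2, map_one]
  · obtain ⟨D, hD⟩ := key ρ hρ
    obtain ⟨C, h⟩ := I.coc D
    refine ⟨C, fun B => ?_⟩
    obtain ⟨x, A, hA, hs⟩ := h B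
    refine ⟨e x, A, ?_, hs⟩
    rw [hA, ← hD]; simp

end

end Pool.Agent.ToNR
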